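import Pool.Agent.X288.AR.Gram
import Pool.Agent.X288.L2.Strict
import Pool.Agent.W353.L1.Final

/-! Artin twists on the edge with a bound for the second moment. -/

set_option autoImplicit false

namespace Pool.Agent.X288.AR

open Complex Filter Topology ComplexConjugate NumberField IsDedekindDomain Polynomial
  Pool.Agent.W401.Cheb Pool.Agent.W540.BE Pool.Agent.W353.L1 Asymptotics
open Pool.Agent.H341R2 (lam lam_tendsto sysK)
open Pool.Agent.W353.NF (SzH vx cz EP_eq)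
open Pool.Agent.W353.TP (HX sysH LL LL_tendsto E_H bdd_isLittleO lam0_sub)
open Pool.Agent.X288.L2 (Sec Cls)

section
variable {F : Type} [Field F] [NumberField F]

/-- from the sums over the primes to the sums over the homomorphisms -/
theorem szH_of_corr {t Ψ : HeightOneSpectrum (𝓞 F) → ℝ} {b B : ℝ} (ht : ∀ v, |t v| ≤ b)
    (hΨ : ∀ v, |Ψ v| ≤ B) {X : ℝ → ℝ}
    (h : Tendsto (fun ε : ℝ => (EP (nm F) ε fun v => t v * Ψ v) / lam ε - X ε) (𝓝[>] 0) (𝓝 0)) :
    SzH (fun x : HX F => t (vx x)) Ψ X := by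
  obtain ⟨p0⟩ : Nonempty (HeightOneSpectrum (𝓞 F)) := by
    obtain ⟨M, hM⟩ := Ideal.exists_maximal (𝓞 F)
    exact ⟨⟨M, hM.isPrime, Ring.ne_bot_of_isMaximal_of_not_isField hM
      (RingOfIntegers.not_isField F)⟩⟩
  have hb0 : 0 ≤ b := (abs_nonneg _).trans (ht p0)
  have hpb : ∀ v, |t v * Ψ v| ≤ b * B := fun v => by
    rw [abs_mul]
    exact mul_le_mul (ht v) (hΨ v) (abs_nonneg _) hb0
  unfold SzH
  -- X LL - EP = o(LL)
  have o1 : (fun ε : ℝ => (EP (nm F) ε fun v => t v * Ψ v) - X ε * lam ε) =o[𝓝[>] 0] LL := by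
    have h1 : (fun ε : ℝ => ((EP (nm F) ε fun v => t v * Ψ v) / lam ε - X ε) * lam ε)
        =o[𝓝[>] 0] fun ε => (1 : ℝ) * lam ε :=
      ((isLittleO_one_iff ℝ).2 h).mul_isBigO (isBigO_refl _ _)
    have h2 : (fun ε : ℝ => (1 : ℝ) * lam ε) =O[𝓝[>] 0] LL := by
      have h3 : (fun ε : ℝ => (lam ε - LL ε) + LL ε) =O[𝓝[>] 0] LL :=
        lam0_sub.isBigO.add (isBigO_refl _ _)
      refine h3.congr (fun ε => by ring) fun _ => rfl
    refine (h1.trans_isBigO h2).congr' ?_ (EventuallyEq.refl _ _)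
    filter_upwards [lam_tendsto.eventually_gt_atTop 0] with ε hε
    rw [sub_mul, div_mul_cancel₀ _ hε.ne']
  -- X is bounded
  have hXb : X =O[𝓝[>] 0] fun _ => (1 : ℝ) := by
    have h1 : (fun ε : ℝ => (EP (nm F) ε fun v => t v * Ψ v) / lam ε) =O[𝓝[>] 0]
        fun _ => (1 : ℝ) := by
      refine IsBigO.of_bound (2 * (b * B)) ?_
      filter_upwards [(EP_one F).eventually_lt_const (by norm_num : (1 : ℝ) < 2),
        lam_tendsto.eventually_gt_atTop 0, self_mem_nhdsWithin] with ε h2 h3 h4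
      have hε : (0 : ℝ) < ε := h4
      rw [Real.norm_eq_abs, norm_one, mul_one, abs_div, abs_of_pos h3, div_le_iff₀ h3]
      rw [div_lt_iff₀ h3] at h2
      have h6 : |EP (nm F) ε fun v => t v * Ψ v| ≤ (b * B) * EP (nm F) ε fun _ => 1 := by
        rw [abs_le]
        constructor
        · have h7 := EP_le normSys hε (φ := fun v => (-1) * (t v * Ψ v)) (B := b * B)
            (fun v => by rw [abs_mul, abs_neg, abs_one, one_mul]; exact hpb v) (b := b * B)
            (fun v => by have := (abs_le.1 (hpb v)).1; linarith)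
          rw [EP_const_mul] at h7
          linarith
        · exact EP_le normSys hε hpb fun v => (le_abs_self _).trans (hpb v)
      have hbB : 0 ≤ b * B := (abs_nonneg _).trans (hpb p0)
      calc |EP (nm F) ε fun v => t v * Ψ v| ≤ (b * B) * EP (nm F) ε fun _ => 1 := h6
        _ ≤ (b * B) * (2 * lam ε) := mul_le_mul_of_nonneg_left h2.le hbB
        _ = _ := by ring
    have h2 : (fun ε : ℝ => (EP (nm F) ε fun v => t v * Ψ v) / lam ε -
        ((EP (nm F) ε fun v => t v * Ψ v) / lam ε - X ε)) =O[𝓝[>] 0] fun _ => (1 : ℝ) :=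
      h1.sub ((isLittleO_one_iff ℝ).2 h).isBigO
    exact h2.congr (fun ε => by ring) fun _ => rfl
  have o2 : (fun ε : ℝ => X ε * (lam ε - LL ε)) =o[𝓝[>] 0] LL := by
    have := hXb.mul_isLittleO lam0_sub
    refine this.congr (fun _ => rfl) fun ε => by ring
  have o3 : (fun ε : ℝ => (EP (nm F) ε fun v => t v * Ψ v) -
      (sysH F).E ε (fun x => t (vx x) * Ψ (vx x))) =o[𝓝[>] 0] LL := by
    apply bdd_isLittleO
    refine ⟨b * B * Module.finrank ℚ F * Pool.Agent.H921R2.TatePole.C0, ?_⟩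
    filter_upwards [self_mem_nhdsWithin] with ε h4
    exact E_H (g := fun v => t v * Ψ v) hpb h4
  refine ((o3.sub o1).sub o2).congr (fun ε => ?_) fun _ => rfl
  ring

/-- the second moment over the homomorphisms -/
theorem sec_of_EP {t : HeightOneSpectrum (𝓞 F) → ℝ} {b : ℝ} (ht : ∀ v, |t v| ≤ b)
    {β : ℝ} (h : ∃ C : ℝ, ∀ᶠ ε : ℝ in 𝓝[>] 0, (EP (nm F) ε fun v => t v ^ 2) ≤
      β * LL ε + C) : Sec (fun x : HX F => t (vx x)) β := by
  obtain ⟨C, hC⟩ := h
  refine ⟨C + b ^ 2 * Module.finrank ℚ F * Pool.Agent.H921R2.TatePole.C0, ?_⟩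
  filter_upwards [hC, self_mem_nhdsWithin] with ε h1 h2
  have h3 := E_H (g := fun v => t v ^ 2) (C := b ^ 2) (fun v => by
    rw [abs_pow]
    exact pow_le_pow_left₀ (abs_nonneg _) (ht v) 2) (ε := ε) h2
  have h4 := (abs_le.1 h3).1
  have h6 : (sysH F).E ε (fun x : HX F => t (vx x) ^ 2) =
    (sysH F).E ε (fun x : HX F => t (Pool.Agent.H921R2.TatePole.kerPrime x.1 x.2).1.1 ^ 2) := rfl
  rw [EP_eq] at h1
  exact (le_of_eq h6).trans (by linarith)

end

section
variable {G : Type*} [Group G]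

open Classical in
/-- the pairing of two representations with heights -/
noncomputable def pd {κ : Type*} {n : κ → ℕ} (ρ : ∀ k, Representation ℂ G (Fin (n k) → ℂ))
    (τ : κ → ℝ) (k l : κ) : ℝ :=
  (if τ k = τ l then (Module.finrank ℂ ((ρ k).IntertwiningMap (ρ l)) : ℝ) / 2 else 0) +
  (if τ k = -τ l then (Module.finrank ℂ ((ρ k).IntertwiningMap (ρ l).dual) : ℝ) / 2 else 0)

/-- the pairing without the dual representations -/
noncomputable def hd {κ : Type*} {n : κ → ℕ} (ρ : ∀ k, Representation ℂ G (Fin (n k) → ℂ))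
    (τ : κ → ℝ) (k l : κ) : ℝ :=
  open scoped Classical in
  if τ k = τ l then (Module.finrank ℂ ((ρ k).IntertwiningMap (ρ l)) : ℝ) else 0

end

section
variable {F : Type} [Field F] [NumberField F]
variable (U : Subgroup (GK F)) [U.Normal] [Finite (GK F ⧸ U)] {κ : Type*} {n : κ → ℕ}
    (ρ : ∀ k, Representation ℂ (GK F) (Fin (n k) → ℂ)) (hρ : ∀ k, ∀ u ∈ U, ρ k u = 1)

theorem avC_hom (k l : κ) :
    avC U (fun q => (chF U ρ hρ k).f q * conj ((chF U ρ hρ l).f q)) =
      (Module.finrank ℂ ((ρ k).IntertwiningMap (ρ l)) : ℂ) := by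
  classical
  let _ : Fintype (GK F ⧸ U) := Fintype.ofFinite _
  have h1 := ortho2 U (ρ l) (hρ l) (ρ k) (hρ k)
  unfold avC
  rw [← h1]
  congr 1
  rw [finsum_eq_sum_of_fintype, finsum_eq_sum_of_fintype]
  refine Finset.sum_congr rfl fun q _ => ?_
  rw [← (chF U ρ hρ l).herm q]
  change (qrep U (ρ k) (hρ k)).character q⁻¹ * (qrep U (ρ l) (hρ l)).character (q⁻¹)⁻¹ = _
  rw [inv_inv, mul_comm]

theorem dual_one {n : ℕ} (ρ : Representation ℂ (GK F) (Fin n → ℂ)) (h : ∀ u ∈ U, ρ u = 1) :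
    ∀ u ∈ U, ρ.dual u = 1 := by
  intro u hu
  ext f x
  rw [Representation.dual_apply, h _ (U.inv_mem hu)]
  rfl

theorem avC_dual (k l : κ) :
    avC U (fun q => (chF U ρ hρ k).f q * (chF U ρ hρ l).f q) =
      (Module.finrank ℂ ((ρ k).IntertwiningMap (ρ l).dual) : ℂ) := by
  classical
  let _ : Fintype (GK F ⧸ U) := Fintype.ofFinite _
  have hne : (Nat.card (GK F ⧸ U) : ℂ) ≠ 0 := by
    have : Nat.card (GK F ⧸ U) ≠ 0 := Nat.card_pos.ne'
    exact_mod_cast this
  let _ : Invertible (Nat.card (GK F ⧸ U) : ℂ) := invertibleOfNonzero hne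
  have h1 := Representation.card_inv_mul_sum_char_mul_char_eq_finrank
    (qrep U (ρ k) (hρ k)) (qrep U (ρ l).dual (dual_one U (ρ l) (hρ l)))
  rw [finrank_qrep] at h1
  rw [← h1]
  unfold avC
  rw [finsum_eq_sum_of_fintype]
  congr 1
  refine Finset.sum_congr rfl fun q _ => ?_
  obtain ⟨g, rfl⟩ := QuotientGroup.mk_surjective q
  have h2 : (qrep U (ρ l).dual (dual_one U (ρ l) (hρ l))).character (QuotientGroup.mk g) =
      (ρ l).character g⁻¹ := by
    have := Representation.char_dual (ρ l) g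
    exact this
  rw [h2, mul_comm]
  rfl

variable (hU : IsOpen (U : Set (GK F)))
  (σ : HeightOneSpectrum (𝓞 F) → GK F) (hσ : ∀ v, IsFrob v (σ v))

include hU hσ in
/-- the mean value of the products -/
theorem has_pd (τ : κ → ℝ) (k l : κ) :
    Has (fun v => (chF U ρ hρ k).R (τ k) σ v * (chF U ρ hρ l).R (τ l) σ v) (pd ρ τ k l) := by
  classical
  set A := chF U ρ hρ k with hA
  set B := chF U ρ hρ l with hB
  have h1 := ((A.mul B).has hU σ hσ (τ k + τ l)).const_mul (1 / 2)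
  have h2 := ((A.mul B.star).has hU σ hσ (τ k - τ l)).const_mul (1 / 2)
  refine (h1.add h2).congr (fun v => ?_) ?_
  · rw [← CF.R_mul]
  · have e1 : avC U (A.mul B).f = (Module.finrank ℂ ((ρ k).IntertwiningMap (ρ l).dual) : ℂ) :=
      avC_dual U ρ hρ k l
    have e2 : avC U (A.mul B.star).f = (Module.finrank ℂ ((ρ k).IntertwiningMap (ρ l)) : ℂ) :=
      avC_hom U ρ hρ k l
    rw [e1, e2, Complex.natCast_re, Complex.natCast_re]
    unfold pd
    have e3 : (τ k - τ l = 0) = (τ k = τ l) := by rw [sub_eq_zero]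
    have e4 : (τ k + τ l = 0) = (τ k = -τ l) := by rw [add_eq_zero_iff_eq_neg]
    simp only [e3, e4]
    split_ifs <;> ring

/-- the complex term -/
noncomputable def RZ (k : κ) (t : ℝ) (v : HeightOneSpectrum (𝓞 F)) : ℂ :=
  (chF U ρ hρ k).f (QuotientGroup.mk (σ v)) * zz t v

include hU hσ in
theorem has_hd (τ : κ → ℝ) (k l : κ) :
    Has (fun v => (RZ U ρ hρ σ k (τ k) v * conj (RZ U ρ hρ σ l (τ l) v)).re) (hd ρ τ k l) := by
  classical
  set A := chF U ρ hρ k with hA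
  set B := chF U ρ hρ l with hB
  have h2 := ((A.mul B.star).has hU σ hσ (τ k - τ l))
  refine h2.congr (fun v => ?_) ?_
  · unfold CF.R RZ
    congr 1
    rw [map_mul, conj_zz, sub_eq_add_neg, zz_add]
    change A.f _ * conj (B.f _) * _ = _
    ring
  · have e2 : avC U (A.mul B.star).f = (Module.finrank ℂ ((ρ k).IntertwiningMap (ρ l)) : ℂ) :=
      avC_hom U ρ hρ k l
    rw [e2, Complex.natCast_re]
    unfold hd
    have e3 : (τ k - τ l = 0) = (τ k = τ l) := by rw [sub_eq_zero]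
    simp only [e3]

include hU hσ hρ in
/-- the real parts have the smaller mean square -/
theorem pd_le_hd [Fintype κ] (τ c : κ → ℝ) :
    ∑ k, ∑ l, c k * c l * pd ρ τ k l ≤ ∑ k, ∑ l, c k * c l * hd ρ τ k l := by
  classical
  have h1 := Pool.Agent.X288.L2.has_sum Finset.univ fun k _ =>
    Pool.Agent.X288.L2.has_sum Finset.univ fun l _ =>
      ((has_pd U ρ hρ hU σ hσ τ k l).const_mul (c k * c l))
  have h2 := Pool.Agent.X288.L2.has_sum Finset.univ fun k _ =>
    Pool.Agent.X288.L2.has_sum Finset.univ fun l _ =>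
      ((has_hd U ρ hρ hU σ hσ τ k l).const_mul (c k * c l))
  obtain ⟨⟨B1, hB1⟩, h1'⟩ := h1
  obtain ⟨⟨B2, hB2⟩, h2'⟩ := h2
  refine le_of_tendsto_of_tendsto h1' h2' ?_
  filter_upwards [lam_tendsto.eventually_gt_atTop 0, self_mem_nhdsWithin] with ε h3 h4
  refine div_le_div_of_nonneg_right ?_ h3.le
  refine EP_mono hB1 hB2 (fun v => ?_) h4
  have e1 : ∑ k, ∑ l, c k * c l * ((chF U ρ hρ k).R (τ k) σ v * (chF U ρ hρ l).R (τ l) σ v) =
      (∑ k, (c k : ℂ) * RZ U ρ hρ σ k (τ k) v).re ^ 2 := by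
    rw [Complex.re_sum, sq, Finset.sum_mul_sum]
    refine Finset.sum_congr rfl fun k _ => Finset.sum_congr rfl fun l _ => ?_
    rw [Complex.re_ofReal_mul, Complex.re_ofReal_mul]
    change _ = c k * (chF U ρ hρ k).R (τ k) σ v * (c l * (chF U ρ hρ l).R (τ l) σ v)
    ring
  have e2 : ∑ k, ∑ l, c k * c l * (RZ U ρ hρ σ k (τ k) v * conj (RZ U ρ hρ σ l (τ l) v)).re =
      ‖∑ k, (c k : ℂ) * RZ U ρ hρ σ k (τ k) v‖ ^ 2 := by
    have e3 : ‖∑ k, (c k : ℂ) * RZ U ρ hρ σ k (τ k) v‖ ^ 2 =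
        ((∑ k, (c k : ℂ) * RZ U ρ hρ σ k (τ k) v) *
          conj (∑ k, (c k : ℂ) * RZ U ρ hρ σ k (τ k) v)).re := by
      rw [Complex.mul_conj, Complex.ofReal_re, Complex.normSq_eq_norm_sq]
    rw [e3, map_sum, Finset.sum_mul_sum, Complex.re_sum]
    refine Finset.sum_congr rfl fun k _ => ?_
    rw [Complex.re_sum]
    refine Finset.sum_congr rfl fun l _ => ?_
    rw [map_mul, Complex.conj_ofReal]
    have : ((c k : ℂ) * RZ U ρ hρ σ k (τ k) v) * ((c l : ℂ) * conj (RZ U ρ hρ σ l (τ l) v)) =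
        ((c k * c l : ℝ) : ℂ) * (RZ U ρ hρ σ k (τ k) v * conj (RZ U ρ hρ σ l (τ l) v)) := by
      push_cast
      ring
    rw [this, Complex.re_ofReal_mul]
  rw [e1, e2, ← sq_abs]
  exact pow_le_pow_left₀ (abs_nonneg _) (Complex.abs_re_le_norm _) 2

end

end Pool.Agent.X288.AR
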