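import Pool.Agent.W353.L1.Pairs

/-! The Gram inequality with a bound for the second moment. -/

set_option autoImplicit false

namespace Pool.Agent.X288.AR

open Filter Topology Pool.Agent.H341R2 Pool.Agent.W540.BE

section

variable {P : Type*} {N : P → ℕ}

/-- Cauchy-Schwarz for the weighted sums -/
theorem EP_cs (hN : NormSys N) {φ ψ : P → ℝ} {b B : ℝ} (hφ : ∀ p, |φ p| ≤ b)
    (hψ : ∀ p, |ψ p| ≤ B) (p0 : P) {ε : ℝ} (hε : 0 < ε) :
    (EP N ε fun p => φ p * ψ p) ^ 2 ≤ (EP N ε fun p => φ p ^ 2) * EP N ε fun p => ψ p ^ 2 := by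
  have hb0 : 0 ≤ b := (abs_nonneg _).trans (hφ p0)
  have key : ∀ x : ℝ, 0 ≤ (EP N ε fun p => ψ p ^ 2) * (x * x) +
      (2 * EP N ε fun p => φ p * ψ p) * x + EP N ε fun p => φ p ^ 2 := by
    intro x
    have h1 : 0 ≤ EP N ε (fun p => (φ p + x * ψ p) ^ 2) := EP_nonneg fun p => sq_nonneg _
    have hb1 : ∀ p, |φ p ^ 2| ≤ b ^ 2 := fun p => by
      rw [abs_pow]
      exact pow_le_pow_left₀ (abs_nonneg _) (hφ p) 2
    have hb2 : ∀ p, |(2 * x) * (φ p * ψ p)| ≤ |2 * x| * (b * B) := fun p => by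
      rw [abs_mul, abs_mul (φ p)]
      exact mul_le_mul_of_nonneg_left (mul_le_mul (hφ p) (hψ p) (abs_nonneg _) hb0)
        (abs_nonneg _)
    have hb3 : ∀ p, |x ^ 2 * ψ p ^ 2| ≤ x ^ 2 * B ^ 2 := fun p => by
      rw [abs_mul, abs_pow, abs_pow, sq_abs]
      exact mul_le_mul_of_nonneg_left (pow_le_pow_left₀ (abs_nonneg _) (hψ p) 2) (sq_nonneg _)
    have e1 : EP N ε (fun p => (φ p + x * ψ p) ^ 2) =
        (EP N ε fun p => φ p ^ 2) + ((2 * x) * (EP N ε fun p => φ p * ψ p) +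
          x ^ 2 * EP N ε fun p => ψ p ^ 2) := by
      rw [← EP_const_mul, ← EP_const_mul, ← EP_add hN hε hb2 hb3, ← EP_add hN hε hb1
        (B' := |2 * x| * (b * B) + x ^ 2 * B ^ 2)
        (fun p => (abs_add_le _ _).trans (add_le_add (hb2 p) (hb3 p)))]
      congr 1
      funext p
      ring
    rw [e1] at h1
    linarith
  have h1 := discrim_le_zero key
  rw [discrim] at h1
  nlinarith

/-- **The Gram inequality**, uniformly in bounded coefficients, with a bound `β` for the second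
moment of `t`. -/
theorem gramQ (hN : NormSys N) (p0 : P) {κ : Type*} (K : Finset κ) (t : P → ℝ)
    (v : κ → P → ℝ) {b β : ℝ} (ht : ∀ p, |t p| ≤ b) (B : κ → ℝ) (hv : ∀ k p, |v k p| ≤ B k)
    (hβ : 0 ≤ β) (hsec : ∀ δ : ℝ, 0 < δ →
      ∀ᶠ ε : ℝ in 𝓝[>] 0, (EP N ε fun p => t p ^ 2) / lam ε ≤ β + δ)
    (g : κ → κ → ℝ) (hg : ∀ k ∈ K, ∀ l ∈ K,
      Tendsto (fun ε : ℝ => (EP N ε fun p => v k p * v l p) / lam ε) (𝓝[>] 0) (𝓝 (g k l)))
    (x : κ → ℝ → ℝ) (hx : ∀ k ∈ K, Tendsto (fun ε : ℝ =>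
      (EP N ε fun p => t p * v k p) / lam ε - x k ε) (𝓝[>] 0) (𝓝 0))
    {Y : ℝ} (hY : ∀ k ∈ K, ∀ᶠ ε : ℝ in 𝓝[>] 0, |x k ε| ≤ Y)
    (C : ℝ) {η : ℝ} (hη : 0 < η) :
    ∀ᶠ ε : ℝ in 𝓝[>] 0, ∀ c : κ → ℝ, (∀ k ∈ K, |c k| ≤ C) →
      (∑ k ∈ K, c k * x k ε) ^ 2 ≤ β * (∑ k ∈ K, ∑ l ∈ K, (c k * c l) * g k l) + η := by
  classical
  have hb0 : 0 ≤ b := (abs_nonneg _).trans (ht p0)
  have hB0 : ∀ k, 0 ≤ B k := fun k => (abs_nonneg _).trans (hv k p0)
  set C1 : ℝ := |C| + 1 with hC1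
  have hC1pos : 0 < C1 := by positivity
  set n : ℝ := (K.card : ℝ) with hn
  have hn0 : 0 ≤ n := by positivity
  set G0 : ℝ := ∑ k ∈ K, ∑ l ∈ K, |g k l| with hG0
  have hG00 : 0 ≤ G0 := Finset.sum_nonneg fun _ _ => Finset.sum_nonneg fun _ _ => abs_nonneg _
  set Z : ℝ := C1 * n * |Y| with hZ
  have hZ0 : 0 ≤ Z := by positivity
  obtain ⟨δ, hδ0, hδ1, hδ⟩ : ∃ δ : ℝ, 0 < δ ∧ δ ≤ 1 ∧
      δ * ((β + 1) * (C1 ^ 2 * n ^ 2) + C1 ^ 2 * G0 + C1 * n * (2 * Z + C1 * n)) ≤ η := by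
    set D : ℝ := (β + 1) * (C1 ^ 2 * n ^ 2) + C1 ^ 2 * G0 + C1 * n * (2 * Z + C1 * n) with hD
    have hD0 : 0 ≤ D := by positivity
    refine ⟨min 1 (η / (D + 1)), lt_min one_pos (by positivity), min_le_left _ _, ?_⟩
    calc min 1 (η / (D + 1)) * D ≤ η / (D + 1) * D :=
          mul_le_mul_of_nonneg_right (min_le_right _ _) hD0
      _ = η * (D / (D + 1)) := by ring
      _ ≤ η * 1 := by
          refine mul_le_mul_of_nonneg_left ?_ hη.le
          rw [div_le_one (by linarith)]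
          linarith
      _ = η := mul_one η
  have ev2 : ∀ᶠ ε : ℝ in 𝓝[>] 0, ∀ k ∈ K, ∀ l ∈ K,
      |(EP N ε fun p => v k p * v l p) / lam ε - g k l| < δ := by
    rw [Filter.eventually_all_finset]
    intro k hk
    rw [Filter.eventually_all_finset]
    intro l hl
    have := (Metric.tendsto_nhds.1 (hg k hk l hl)) δ hδ0
    simpa [Real.dist_eq] using this
  have ev3 : ∀ᶠ ε : ℝ in 𝓝[>] 0, ∀ k ∈ K,
      |(EP N ε fun p => t p * v k p) / lam ε - x k ε| < δ := by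
    rw [Filter.eventually_all_finset]
    intro k hk
    have := (Metric.tendsto_nhds.1 (hx k hk)) δ hδ0
    simpa [Real.dist_eq] using this
  have ev4 : ∀ᶠ ε : ℝ in 𝓝[>] 0, ∀ k ∈ K, |x k ε| ≤ |Y| := by
    rw [Filter.eventually_all_finset]
    intro k hk
    exact (hY k hk).mono fun ε h => h.trans (le_abs_self _)
  filter_upwards [hsec δ hδ0, ev2, ev3, ev4, lam_tendsto.eventually_gt_atTop 0,
    self_mem_nhdsWithin] with ε h1 h2 h3 h3' h4 h5
  have hε : (0 : ℝ) < ε := h5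
  intro c hc
  have hc1 : ∀ k ∈ K, |c k| ≤ C1 := fun k hk =>
    (hc k hk).trans ((le_abs_self C).trans (by rw [hC1]; linarith))
  set w : P → ℝ := fun p => ∑ k ∈ K, c k * v k p with hw
  have hbw : ∀ p, |w p| ≤ ∑ k ∈ K, |c k| * B k := fun p =>
    (Finset.abs_sum_le_sum_abs _ _).trans (Finset.sum_le_sum fun k _ => by
      rw [abs_mul]
      exact mul_le_mul_of_nonneg_left (hv k p) (abs_nonneg _))
  have hcs := EP_cs hN ht hbw p0 hε
  set y : κ → ℝ := fun k => (EP N ε fun p => t p * v k p) / lam ε with hy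
  set e : κ → κ → ℝ := fun k l => (EP N ε fun p => v k p * v l p) / lam ε with he
  set u : ℝ := (EP N ε fun p => t p ^ 2) / lam ε with hu
  have hu0 : 0 ≤ u := div_nonneg (EP_nonneg fun p => sq_nonneg _) h4.le
  have hbk : ∀ k p, |c k * (t p * v k p)| ≤ |c k| * (b * B k) := fun k p => by
    rw [abs_mul, abs_mul (t p)]
    exact mul_le_mul_of_nonneg_left (mul_le_mul (ht p) (hv k p) (abs_nonneg _) hb0)
      (abs_nonneg _)
  have hbkl : ∀ k l p, |(c k * c l) * (v k p * v l p)| ≤ |c k * c l| * (B k * B l) :=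
    fun k l p => by
    rw [abs_mul, abs_mul (v k p)]
    exact mul_le_mul_of_nonneg_left (mul_le_mul (hv k p) (hv l p) (abs_nonneg _) (hB0 k))
      (abs_nonneg _)
  have e1 : (EP N ε fun p => t p * w p) = ∑ k ∈ K, c k * EP N ε fun p => t p * v k p := by
    have e2 : (fun p => t p * w p) = fun p => ∑ k ∈ K, c k * (t p * v k p) := by
      funext p
      rw [hw, Finset.mul_sum]
      exact Finset.sum_congr rfl fun k _ => by ring
    rw [e2, EP_sum hN hε K _ (fun k => |c k| * (b * B k)) fun k _ p => hbk k p]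
    exact Finset.sum_congr rfl fun k _ => EP_const_mul _ _
  have e2 : (EP N ε fun p => w p ^ 2) =
      ∑ k ∈ K, ∑ l ∈ K, (c k * c l) * EP N ε fun p => v k p * v l p := by
    have e3 : (fun p => w p ^ 2) = fun p => ∑ k ∈ K, ∑ l ∈ K, (c k * c l) * (v k p * v l p) := by
      funext p
      rw [hw, sq, Finset.sum_mul_sum]
      exact Finset.sum_congr rfl fun k _ => Finset.sum_congr rfl fun l _ => by ring
    rw [e3, EP_sum hN hε K _ (fun k => ∑ l ∈ K, |c k * c l| * (B k * B l)) fun k _ p =>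
      (Finset.abs_sum_le_sum_abs _ _).trans (Finset.sum_le_sum fun l _ => hbkl k l p)]
    refine Finset.sum_congr rfl fun k _ => ?_
    rw [EP_sum hN hε K _ (fun l => |c k * c l| * (B k * B l)) fun l _ p => hbkl k l p]
    exact Finset.sum_congr rfl fun l _ => EP_const_mul _ _
  set Ge := ∑ k ∈ K, ∑ l ∈ K, (c k * c l) * e k l with hGe
  set Gg := ∑ k ∈ K, ∑ l ∈ K, (c k * c l) * g k l with hGg
  have hGe' : Ge = (EP N ε fun p => w p ^ 2) / lam ε := by
    rw [e2, Finset.sum_div]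
    refine Finset.sum_congr rfl fun k _ => ?_
    rw [Finset.sum_div]
    exact Finset.sum_congr rfl fun l _ => by rw [he]; ring
  have hGe0 : 0 ≤ Ge := by
    rw [hGe']
    exact div_nonneg (EP_nonneg fun p => sq_nonneg _) h4.le
  have hgram : (∑ k ∈ K, c k * y k) ^ 2 ≤ u * Ge := by
    have e3 : ∑ k ∈ K, c k * y k = (EP N ε fun p => t p * w p) / lam ε := by
      rw [e1, Finset.sum_div]
      exact Finset.sum_congr rfl fun k _ => by rw [hy]; ring
    rw [e3, hGe', hu, div_pow]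
    have e4 : (EP N ε fun p => t p ^ 2) / lam ε * ((EP N ε fun p => w p ^ 2) / lam ε) =
        ((EP N ε fun p => t p ^ 2) * EP N ε fun p => w p ^ 2) / lam ε ^ 2 := by
      field_simp
    rw [e4]
    exact div_le_div_of_nonneg_right hcs (by positivity)
  have hdiff : |∑ k ∈ K, c k * x k ε - ∑ k ∈ K, c k * y k| ≤ C1 * n * δ := by
    rw [← Finset.sum_sub_distrib]
    refine (Finset.abs_sum_le_sum_abs _ _).trans ?_
    calc ∑ k ∈ K, |c k * x k ε - c k * y k| ≤ ∑ k ∈ K, C1 * δ := by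
          refine Finset.sum_le_sum fun k hk => ?_
          rw [← mul_sub, abs_mul]
          refine mul_le_mul (hc1 k hk) ?_ (abs_nonneg _) hC1pos.le
          rw [abs_sub_comm]
          exact (h3 k hk).le
      _ = C1 * n * δ := by
          rw [Finset.sum_const, nsmul_eq_mul, hn]
          ring
  set Sx := ∑ k ∈ K, c k * x k ε with hSx
  set Sy := ∑ k ∈ K, c k * y k with hSy
  have hSxb : |Sx| ≤ Z := by
    refine (Finset.abs_sum_le_sum_abs _ _).trans ?_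
    calc ∑ k ∈ K, |c k * x k ε| ≤ ∑ k ∈ K, C1 * |Y| := by
          refine Finset.sum_le_sum fun k hk => ?_
          rw [abs_mul]
          exact mul_le_mul (hc1 k hk) (h3' k hk) (abs_nonneg _) hC1pos.le
      _ = Z := by
          rw [Finset.sum_const, nsmul_eq_mul, hZ, hn]
          ring
  have hxy : Sx ^ 2 ≤ Sy ^ 2 + δ * (C1 * n * (2 * Z + C1 * n)) := by
    have e1 : Sx ^ 2 - Sy ^ 2 = 2 * ((Sx - Sy) * Sx) - (Sx - Sy) * (Sx - Sy) := by ring
    have e2 : 0 ≤ (Sx - Sy) * (Sx - Sy) := mul_self_nonneg _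
    have e3 : (Sx - Sy) * Sx ≤ (C1 * n * δ) * Z := by
      refine (le_abs_self _).trans ?_
      rw [abs_mul]
      exact mul_le_mul hdiff hSxb (abs_nonneg _) (by positivity)
    have e4 : 0 ≤ δ * (C1 * n * (C1 * n)) := by positivity
    nlinarith
  have hGd : |Ge - Gg| ≤ C1 ^ 2 * n ^ 2 * δ := by
    rw [hGe, hGg, ← Finset.sum_sub_distrib]
    refine (Finset.abs_sum_le_sum_abs _ _).trans ?_
    calc ∑ k ∈ K, |∑ l ∈ K, (c k * c l) * e k l - ∑ l ∈ K, (c k * c l) * g k l|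
        ≤ ∑ k ∈ K, ∑ l ∈ K, C1 ^ 2 * δ := by
          refine Finset.sum_le_sum fun k hk => ?_
          rw [← Finset.sum_sub_distrib]
          refine (Finset.abs_sum_le_sum_abs _ _).trans (Finset.sum_le_sum fun l hl => ?_)
          rw [← mul_sub, abs_mul, abs_mul, sq]
          exact mul_le_mul (mul_le_mul (hc1 k hk) (hc1 l hl) (abs_nonneg _) hC1pos.le)
            (h2 k hk l hl).le (abs_nonneg _) (by positivity)
      _ = C1 ^ 2 * n ^ 2 * δ := by
          rw [Finset.sum_const, Finset.sum_const, nsmul_eq_mul, nsmul_eq_mul, hn]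
          ring
  have hGgb : |Gg| ≤ C1 ^ 2 * G0 := by
    rw [hGg, hG0, Finset.mul_sum]
    refine (Finset.abs_sum_le_sum_abs _ _).trans (Finset.sum_le_sum fun k hk => ?_)
    rw [Finset.mul_sum]
    refine (Finset.abs_sum_le_sum_abs _ _).trans (Finset.sum_le_sum fun l hl => ?_)
    rw [abs_mul, abs_mul, sq]
    exact mul_le_mul_of_nonneg_right
      (mul_le_mul (hc1 k hk) (hc1 l hl) (abs_nonneg _) hC1pos.le) (abs_nonneg _)
  have hfin : u * Ge ≤ β * Gg + δ * ((β + 1) * (C1 ^ 2 * n ^ 2) + C1 ^ 2 * G0) := by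
    have q1 : u * Ge ≤ (β + δ) * Ge := mul_le_mul_of_nonneg_right h1 hGe0
    have q2 : Ge ≤ Gg + C1 ^ 2 * n ^ 2 * δ := by
      have := (abs_le.1 hGd).2
      linarith
    have q3 : (β + δ) * Ge ≤ (β + δ) * (Gg + C1 ^ 2 * n ^ 2 * δ) :=
      mul_le_mul_of_nonneg_left q2 (by linarith)
    have q4 : δ * Gg ≤ δ * (C1 ^ 2 * G0) :=
      mul_le_mul_of_nonneg_left ((le_abs_self _).trans hGgb) hδ0.le
    have q5 : (β + δ) * (C1 ^ 2 * n ^ 2 * δ) ≤ (β + 1) * (C1 ^ 2 * n ^ 2 * δ) :=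
      mul_le_mul_of_nonneg_right (by linarith) (by positivity)
    have e5 : (β + δ) * (Gg + C1 ^ 2 * n ^ 2 * δ) =
        β * Gg + δ * Gg + (β + δ) * (C1 ^ 2 * n ^ 2 * δ) := by ring
    rw [e5] at q3
    have e6 : δ * ((β + 1) * (C1 ^ 2 * n ^ 2) + C1 ^ 2 * G0) =
        (β + 1) * (C1 ^ 2 * n ^ 2 * δ) + δ * (C1 ^ 2 * G0) := by ring
    rw [e6]
    linarith
  calc Sx ^ 2 ≤ Sy ^ 2 + δ * (C1 * n * (2 * Z + C1 * n)) := hxy
    _ ≤ u * Ge + δ * (C1 * n * (2 * Z + C1 * n)) := by linarith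
    _ ≤ β * Gg + δ * ((β + 1) * (C1 ^ 2 * n ^ 2) + C1 ^ 2 * G0 +
        C1 * n * (2 * Z + C1 * n)) := by
        have e7 : δ * ((β + 1) * (C1 ^ 2 * n ^ 2) + C1 ^ 2 * G0 +
          C1 * n * (2 * Z + C1 * n)) = δ * ((β + 1) * (C1 ^ 2 * n ^ 2) + C1 ^ 2 * G0) +
          δ * (C1 * n * (2 * Z + C1 * n)) := by ring
        rw [e7]
        linarith
    _ ≤ β * Gg + η := by linarith

end

end Pool.Agent.X288.AR
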