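import Pool.Agent.X288.AR.Sec

/-! Artin twists on the edge: the Gram inequality and the strict inequality. -/

set_option autoImplicit false
set_option linter.unusedSectionVars false

namespace Pool.Agent.X288.AR

open Complex Filter Topology ComplexConjugate NumberField IsDedekindDomain Polynomial
  Pool.Agent.W401.Cheb Pool.Agent.W540.BE Pool.Agent.W353.L1 Asymptotics
open Pool.Agent.H341R2 (lam lam_tendsto sysK)
open Pool.Agent.W353.NF (SzH vx cz EP_eq)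
open Pool.Agent.W353.TP (HX sysH LL LL_tendsto E_H bdd_isLittleO lam0_sub)
open Pool.Agent.X288.L2 (Sec Cls)

section
variable {F : Type} [Field F] [NumberField F]

theorem prime0 : Nonempty (HeightOneSpectrum (𝓞 F)) := by
  obtain ⟨M, hM⟩ := Ideal.exists_maximal (𝓞 F)
  exact ⟨⟨M, hM.isPrime, Ring.ne_bot_of_isMaximal_of_not_isField hM
    (RingOfIntegers.not_isField F)⟩⟩

/-- bounded functions -/
theorem EP_abs {φ : HeightOneSpectrum (𝓞 F) → ℝ} {b : ℝ} (hφ : ∀ v, |φ v| ≤ b) :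
    ∀ᶠ ε : ℝ in 𝓝[>] 0, |(EP (nm F) ε φ) / lam ε| ≤ 2 * b := by
  obtain ⟨p0⟩ := prime0 (F := F)
  have hb0 : 0 ≤ b := (abs_nonneg _).trans (hφ p0)
  filter_upwards [(EP_one F).eventually_lt_const (by norm_num : (1 : ℝ) < 2),
    lam_tendsto.eventually_gt_atTop 0, self_mem_nhdsWithin] with ε h2 h3 h4
  have hε : (0 : ℝ) < ε := h4
  rw [abs_div, abs_of_pos h3, div_le_iff₀ h3]
  rw [div_lt_iff₀ h3] at h2
  have h6 : |EP (nm F) ε φ| ≤ b * EP (nm F) ε fun _ => 1 := by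
    rw [abs_le]
    constructor
    · have h7 := EP_le normSys hε (φ := fun v => (-1) * φ v) (B := b)
        (fun v => by rw [abs_mul, abs_neg, abs_one, one_mul]; exact hφ v) (b := b)
        (fun v => by have := (abs_le.1 (hφ v)).1; linarith)
      rw [EP_const_mul] at h7
      linarith
    · exact EP_le normSys hε hφ fun v => (le_abs_self _).trans (hφ v)
  calc |EP (nm F) ε φ| ≤ b * EP (nm F) ε fun _ => 1 := h6
    _ ≤ b * (2 * lam ε) := mul_le_mul_of_nonneg_left h2.le hb0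
    _ = _ := by ring

/-- the second moment on the scale `lam` -/
theorem sec_lam {t : HeightOneSpectrum (𝓞 F) → ℝ} {β : ℝ}
    (h : ∃ C : ℝ, ∀ᶠ ε : ℝ in 𝓝[>] 0, (EP (nm F) ε fun v => t v ^ 2) ≤ β * LL ε + C)
    {δ : ℝ} (hδ : 0 < δ) :
    ∀ᶠ ε : ℝ in 𝓝[>] 0, (EP (nm F) ε fun v => t v ^ 2) / lam ε ≤ β + δ := by
  obtain ⟨C, hC⟩ := h
  have h1 : Tendsto (fun ε : ℝ => β * (Real.log (1 / ε) / lam ε) + C / lam ε) (𝓝[>] 0)
      (𝓝 (β * 1 + 0)) :=
    (Pool.Agent.Y722.EP.log_ratio.const_mul β).add (tendsto_const_nhds.div_atTop lam_tendsto)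
  rw [mul_one, add_zero] at h1
  filter_upwards [hC, h1.eventually_lt_const (lt_add_of_pos_right β hδ),
    lam_tendsto.eventually_gt_atTop 0] with ε h2 h3 h4
  refine le_trans ?_ h3.le
  have e : β * (Real.log (1 / ε) / lam ε) + C / lam ε = (β * LL ε + C) / lam ε := by
    have : LL ε = Real.log (1 / ε) := rfl
    rw [this]
    ring
  rw [e]
  exact div_le_div_of_nonneg_right h2 h4.le

end

section
variable {F : Type} [Field F] [NumberField F] {b : ℕ} (w : ℝ)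
    (α : HeightOneSpectrum (𝓞 F) → Fin b → ℂ)
    (hα : ∀ᶠ v in cofinite, ∀ j, ‖α v j‖ = (nm F v : ℝ) ^ w)
    (hreal : ∀ᶠ v in cofinite, (∑ j, α v j).im = 0)
    (U : Subgroup (GK F)) [U.Normal] (hU : IsOpen (U : Set (GK F))) [Finite (GK F ⧸ U)]
    {κ : Type*} {n : κ → ℕ}
    (ρ : ∀ k, Representation ℂ (GK F) (Fin (n k) → ℂ)) (hρ : ∀ k, ∀ u ∈ U, ρ k u = 1)
    (τ : κ → ℝ) (B : κ → HeightOneSpectrum (𝓞 F) → ℂ[X])
    (hB : ∀ k, ∀ᶠ v in cofinite, ∀ σ : GK F, IsFrob v σ → ∀ z : ℂ,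
      (B k v).eval z = ∏ j, LinearMap.det (1 - (α v j * z) • ρ k σ⁻¹))
    (hB0 : ∀ k, ∀ v, (B k v).eval (((nm F v : ℕ) : ℂ) ^ (-(w + 1 + τ k * I : ℂ))) ≠ 0)
    (L : κ → ℂ → ℂ)
    (hL : ∀ k, ∀ s : ℂ, w + 1 < s.re →
      L k s = ∏' v, ((B k v).eval (((nm F v : ℕ) : ℂ) ^ (-s)))⁻¹)

theorem R_bound (k : κ) (t : ℝ) (σ : HeightOneSpectrum (𝓞 F) → GK F)
    (v : HeightOneSpectrum (𝓞 F)) : |(chF U ρ hρ k).R t σ v| ≤ n k := by
  unfold CF.R
  refine (Complex.abs_re_le_norm _).trans ?_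
  rw [norm_mul, norm_zz, mul_one]
  exact norm_char_le U (ρ k) (hρ k) _

include hα hreal hB hB0 hL in
/-- the sizes are the correlations of the traces with the characters -/
theorem xs_corr (σ : HeightOneSpectrum (𝓞 F) → GK F) (hσ : ∀ v, IsFrob v (σ v)) (k : κ) :
    Tendsto (fun ε : ℝ => (EP (nm F) ε fun v => tr w α v * (chF U ρ hρ k).R (τ k) σ v) / lam ε -
      xs w τ L k ε) (𝓝[>] 0) (𝓝 0) := by
  have h := (size_corr w α hα hreal U (ρ k) (hρ k) (τ k) (B k) (hB k) (hB0 k) (L k) (hL k) σ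
    hσ).2
  refine h.congr fun ε => ?_
  congr 2
  unfold EP
  refine tsum_congr fun v => ?_
  congr 1
  exact Complex.re_ofReal_mul _ _

include hα hreal hU hρ hB hB0 hL in
/-- the sizes are bounded -/
theorem xs_bdd [Fintype κ] : ∃ Y : ℝ, ∀ k, ∀ᶠ ε : ℝ in 𝓝[>] 0, |xs w τ L k ε| ≤ Y := by
  choose σ hσ using exists_isFrob (F := F)
  refine ⟨∑ k, (2 * (b * n k : ℝ) + 1), fun k => ?_⟩
  have h1 := xs_corr w α hα hreal U ρ hρ τ B hB hB0 L hL σ hσ k
  have h2 := (Metric.tendsto_nhds.1 h1) 1 one_pos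
  have h3 := EP_abs (F := F) (φ := fun v => tr w α v * (chF U ρ hρ k).R (τ k) σ v)
    (b := b * n k) (fun v => by
      rw [abs_mul]
      exact mul_le_mul (abs_tr_le w α v) (R_bound U ρ hρ k _ σ v) (abs_nonneg _)
        (Nat.cast_nonneg _))
  filter_upwards [h2, h3] with ε h4 h5
  rw [Real.dist_eq, sub_zero] at h4
  have h6 := abs_sub_abs_le_abs_sub (xs w τ L k ε)
    ((EP (nm F) ε fun v => tr w α v * (chF U ρ hρ k).R (τ k) σ v) / lam ε)
  rw [abs_sub_comm] at h6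
  have h7 : (2 * (b * n k : ℝ) + 1) ≤ ∑ k, (2 * (b * n k : ℝ) + 1) :=
    Finset.single_le_sum (f := fun k => (2 * (b * n k : ℝ) + 1)) (fun k _ => by positivity)
      (Finset.mem_univ k)
  linarith

include hα hreal hU hρ hB hB0 hL in
/-- **The Gram inequality**, with a bound for the second moment. -/
theorem gram_main [Fintype κ] {β : ℝ} (hβ : 0 ≤ β)
    (hsec : ∃ C : ℝ, ∀ᶠ ε : ℝ in 𝓝[>] 0, (EP (nm F) ε fun v => tr w α v ^ 2) ≤ β * LL ε + C)
    (C : ℝ) {η : ℝ} (hη : 0 < η) :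
    ∀ᶠ ε : ℝ in 𝓝[>] 0, ∀ c : κ → ℝ, (∀ k, |c k| ≤ C) →
      (∑ k, c k * xs w τ L k ε) ^ 2 ≤ β * (∑ k, ∑ l, c k * c l * pd ρ τ k l) + η := by
  choose σ hσ using exists_isFrob (F := F)
  obtain ⟨p0⟩ := prime0 (F := F)
  obtain ⟨Y, hY⟩ := xs_bdd w α hα hreal U hU ρ hρ τ B hB hB0 L hL
  have h := gramQ (normSys (F := F)) p0 Finset.univ (tr w α)
    (fun k => (chF U ρ hρ k).R (τ k) σ) (b := b) (β := β) (abs_tr_le w α) (fun k => (n k : ℝ))
    (fun k v => R_bound U ρ hρ k (τ k) σ v) hβ (fun δ hδ => sec_lam hsec hδ) (pd ρ τ)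
    (fun k _ l _ => (has_pd U ρ hρ hU σ hσ τ k l).2) (xs w τ L)
    (fun k _ => xs_corr w α hα hreal U ρ hρ τ B hB hB0 L hL σ hσ k) (fun k _ => hY k) C hη
  filter_upwards [h] with ε h1 c hc
  exact h1 c fun k _ => hc k

/-- the real part of the character -/
noncomputable def rch {n : ℕ} (ρ : Representation ℂ (GK F) (Fin n → ℂ)) (g : GK F) : ℝ :=
  (ρ.character g).re

theorem rch_cls {n : ℕ} (ρ : Representation ℂ (GK F) (Fin n → ℂ)) (h : ∀ u ∈ U, ρ u = 1) :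
    Cls U (rch ρ) where
  hU σ u hu := by
    unfold rch Representation.character
    rw [map_mul, h u hu, mul_one]
  hc σ g := by
    unfold rch
    rw [Representation.char_conj]
  hi σ := by
    unfold rch
    rw [← char_conj_eq U ρ h σ, Complex.conj_re]

include hα hreal hU hρ hB hB0 hL in
/-- **The strict inequality** at the real point for irreducible representations of dimension at
least three. -/
theorem strict_main (hb : b ≤ 2)
    (hsec : ∃ C : ℝ, ∀ᶠ ε : ℝ in 𝓝[>] 0, (EP (nm F) ε fun v => tr w α v ^ 2) ≤ 1 * LL ε + C)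
    {k : κ} (hk : (ρ k).IsIrreducible) (h3 : 3 ≤ n k) (hτ : τ k = 0) :
    ∃ A : ℝ, A < 1 ∧ ∀ᶠ ε : ℝ in 𝓝[>] 0, |xs w τ L k ε| ≤ A := by
  classical
  choose σ hσ using exists_isFrob (F := F)
  have hcl := rch_cls U (ρ k) (hρ k)
  have hb2 : (b : ℝ) ≤ 2 := by exact_mod_cast hb
  have h1 := szH_of_corr (abs_tr_le w α) (R_bound U ρ hρ k (τ k) σ)
    (xs_corr w α hα hreal U ρ hρ τ B hB hB0 L hL σ hσ k)
  have e1 : ∀ v, (chF U ρ hρ k).R (τ k) σ v = rch (ρ k) (σ v) * cz 0 v := by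
    intro v
    have e2 : cz (0 : ℝ) v = 1 := by
      unfold cz zz
      simp
    have e3 : (chF U ρ hρ k).R (τ k) σ v = rch (ρ k) (σ v)⁻¹ := by
      unfold CF.R rch
      have e4 : zz (τ k) v = 1 := by
        unfold zz
        rw [hτ]
        simp
      rw [e4, mul_one]
      rfl
    rw [e2, mul_one, e3, hcl.hi]
  have h2 := h1.congr e1 fun _ => rfl
  have hsq : Pool.Agent.X288.L2.hw 0 0 * (avR U fun q => rch (ρ k) q.out ^ 2) ≤ 1 := by
    rw [Pool.Agent.X288.L2.hw_self, if_pos rfl, one_mul, ← sq_one U ρ hρ hk]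
    unfold CF.sq
    refine Pool.Agent.TH322.BC.avR_mono_le U fun q => ?_
    have e5 : ‖(chF U ρ hρ k).f q‖ = ‖(ρ k).character q.out‖ := by
      have e6 : (chF U ρ hρ k).f q⁻¹ = (ρ k).character q.out := by
        change (qrep U (ρ k) (hρ k)).character (q⁻¹)⁻¹ = _
        rw [inv_inv]
        conv_lhs => rw [← QuotientGroup.out_eq' q]
        rfl
      rw [← e6, (chF U ρ hρ k).herm, Complex.norm_conj]
    rw [e5, ← sq_abs]
    exact pow_le_pow_left₀ (abs_nonneg _) (Complex.abs_re_le_norm _) 2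
  obtain ⟨A, hA, h4⟩ := Pool.Agent.X288.L2.strictT hcl hσ h2 hU
    (sec_of_EP (abs_tr_le w α) hsec) (fun x => (abs_tr_le w α _).trans hb2) hsq
    (Or.inr ⟨1, by
      unfold rch
      rw [Representation.char_one, Module.finrank_fin_fun, Complex.natCast_re,
        abs_of_nonneg (Nat.cast_nonneg _)]
      have : (3 : ℝ) ≤ n k := by exact_mod_cast h3
      linarith⟩)
  refine ⟨(A + 1) / 2, by linarith, (h4 ((1 - A) / 2) (by linarith)).mono fun ε h5 => ?_⟩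
  linarith

end

end Pool.Agent.X288.AR
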