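import Pool.Agent.X288.AR.Core
import Pool.Agent.X288.L2.Curve
import Pool.Agent.W353.L1.EC

/-! The second moment of the traces of Frobenius of a modular elliptic curve. -/

set_option autoImplicit false

namespace Pool.Agent.X288.AR

open Complex Filter Topology ComplexConjugate NumberField IsDedekindDomain Asymptotics
  Pool.Agent.W401.Cheb Pool.Agent.W540.BE Pool.Agent.W353.L1 Pool.Agent.W353.NF
open Pool.Agent.W353.TP (HX sysH LL LL_tendsto E_H EH_eq card_hom_le bdd_isLittleO lam0_sub)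
open Pool.Agent.H341R2 (lam lam_tendsto sysK)
open Pool.Agent.H921R2.TatePole (kerPrime)
open Pool.Agent.Y722.EP (points IsNewformOf IsModular rE rE_kerPrime abs_rE trace)
open Pool.Agent.Y722.RS (tt)

section
set_option linter.unusedSectionVars false
variable {F : Type} [Field F] [NumberField F]

/-- the second moment, for functions which agree with the square of the coefficient at almost all
primes of degree one -/
theorem EP_sec {N : ℕ} [NeZero N] {f : Pool.Agent.Y722.RS.S2 N} (hf : Pool.Agent.TH941.Hecke f)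
    {φ : HeightOneSpectrum (𝓞 F) → ℝ} (h0 : ∀ v, 0 ≤ φ v) (h4 : ∀ v, φ v ≤ 4) (M : ℕ)
    (hM : ∀ p : Nat.Primes, M < (p : ℕ) → ∀ u : 𝓞 F →+* ZMod (p : ℕ),
      φ (kerPrime p u).1.1 = tt f p * tt f p) :
    ∃ C : ℝ, ∀ᶠ ε : ℝ in 𝓝[>] 0, EP (nm F) ε φ ≤ Module.finrank ℚ F * LL ε + C := by
  classical
  obtain ⟨C, hC⟩ := Pool.Agent.Y722.RS.self_le hf
  set D : ℝ := (Module.finrank ℚ F : ℝ) with hD
  have hD0 : 0 ≤ D := Nat.cast_nonneg _
  have hfin : {p : Nat.Primes | (p : ℕ) ≤ M}.Finite :=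
    (Set.finite_Iic M).preimage (Subtype.val_injective.injOn)
  set S : Finset Nat.Primes := hfin.toFinset with hS
  have hφb : ∀ v, |φ v| ≤ 4 := fun v => by
    rw [abs_of_nonneg (h0 v)]
    exact h4 v
  refine ⟨D * C + S.card * (D * 4) + 4 * Module.finrank ℚ F * Pool.Agent.H921R2.TatePole.C0, ?_⟩
  filter_upwards [hC, self_mem_nhdsWithin] with ε h1 h2
  have hε : (0 : ℝ) < ε := h2
  have h3 := E_H hφb hε
  have h3' := (abs_le.1 h3).2
  rw [EH_eq hε (fun x => hφb _)] at h3'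
  have htb : ∀ p : Nat.Primes, |tt f p * tt f p| ≤ 4 := by
    intro p
    rw [abs_mul]
    calc |tt f p| * |tt f p| ≤ 2 * 2 := mul_le_mul (Pool.Agent.Y722.RS.tt_le hf p.2)
          (Pool.Agent.Y722.RS.tt_le hf p.2) (abs_nonneg _) (by norm_num)
      _ = 4 := by norm_num
  have hs2 := Pool.Agent.Y722.EP.summable_E (φ := fun p : Nat.Primes => tt f p * tt f p) htb hε
  have hub : ∀ p : Nat.Primes, ∑ u : 𝓞 F →+* ZMod (p : ℕ), φ (kerPrime p u).1.1 ≤ D * 4 := by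
    intro p
    refine (Finset.sum_le_card_nsmul _ _ 4 fun u _ => h4 _).trans ?_
    rw [nsmul_eq_mul, Finset.card_univ]
    refine mul_le_mul_of_nonneg_right ?_ (by norm_num)
    rw [hD]
    exact_mod_cast card_hom_le (K := F) p
  have hu0 : ∀ p : Nat.Primes, 0 ≤ ∑ u : 𝓞 F →+* ZMod (p : ℕ), φ (kerPrime p u).1.1 :=
    fun p => Finset.sum_nonneg fun u _ => h0 _
  have hs1 := Pool.Agent.Y722.EP.summable_E (B := D * 4)
    (φ := fun p : Nat.Primes => ∑ u : 𝓞 F →+* ZMod (p : ℕ), φ (kerPrime p u).1.1) (fun p => by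
      rw [abs_of_nonneg (hu0 p)]; exact hub p) hε
  have hle : ∀ p : Nat.Primes, (∑ u : 𝓞 F →+* ZMod (p : ℕ), φ (kerPrime p u).1.1) *
      ((p : ℕ) : ℝ) ^ (-(1 + ε)) ≤
      D * ((tt f p * tt f p) * ((p : ℕ) : ℝ) ^ (-(1 + ε))) + (if p ∈ S then D * 4 else 0) := by
    intro p
    have hw0 : 0 ≤ ((p : ℕ) : ℝ) ^ (-(1 + ε)) := by positivity
    have hw1 : ((p : ℕ) : ℝ) ^ (-(1 + ε)) ≤ 1 :=
      Real.rpow_le_one_of_one_le_of_nonpos (by exact_mod_cast p.2.one_le) (by linarith)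
    by_cases hp : p ∈ S
    · rw [if_pos hp]
      have q1 : (∑ u : 𝓞 F →+* ZMod (p : ℕ), φ (kerPrime p u).1.1) *
          ((p : ℕ) : ℝ) ^ (-(1 + ε)) ≤ D * 4 := by
        calc _ ≤ (D * 4) * 1 := mul_le_mul (hub p) hw1 hw0 (by positivity)
          _ = D * 4 := mul_one _
      have q2 : 0 ≤ D * ((tt f p * tt f p) * ((p : ℕ) : ℝ) ^ (-(1 + ε))) :=
        mul_nonneg hD0 (mul_nonneg (mul_self_nonneg _) hw0)
      linarith
    · rw [if_neg hp, add_zero, ← mul_assoc]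
      refine mul_le_mul_of_nonneg_right ?_ hw0
      have hp' : M < (p : ℕ) := by
        by_contra h
        apply hp
        rw [hS, Set.Finite.mem_toFinset]
        exact not_lt.1 h
      rw [Finset.sum_congr rfl fun u _ => hM p hp' u, Finset.sum_const, nsmul_eq_mul,
        Finset.card_univ]
      refine mul_le_mul_of_nonneg_right ?_ (mul_self_nonneg _)
      rw [hD]
      exact_mod_cast card_hom_le (K := F) p
  have hs3 : Summable fun p : Nat.Primes => if p ∈ S then D * 4 else 0 :=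
    summable_of_ne_finset_zero (s := S) fun p hp => if_neg hp
  unfold Pool.Agent.H341R2.E at h1 h3'
  have h4' := hs1.tsum_le_tsum hle ((hs2.mul_left D).add hs3)
  rw [(hs2.mul_left D).tsum_add hs3, tsum_mul_left, tsum_eq_sum (s := S) fun p hp => if_neg hp,
      Finset.sum_congr rfl fun p hp => if_pos hp, Finset.sum_const, nsmul_eq_mul] at h4'
  have h5 := mul_le_mul_of_nonneg_left h1 hD0
  have e5 : LL ε = Real.log (1 / ε) := rfl
  rw [e5, EP_eq]
  have e6 : D * (Real.log (1 / ε) + C) = D * Real.log (1 / ε) + D * C := by ring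
  rw [e6] at h5
  have h7 := h4'.trans (add_le_add h5 (le_refl ((S.card : ℝ) * (D * 4))))
  have h8 := (sub_le_iff_le_add.1 h3').trans (add_le_add_right h7 _)
  refine h8.trans (le_of_eq ?_)
  ring

end

/-- The integral Weierstrass equation `y² = x³ + a x + b` over a number field. -/
def curve (F : Type) [Field F] (a b : ℤ) : WeierstrassCurve (𝓞 F) where
  a₁ := 0
  a₂ := 0
  a₃ := 0
  a₄ := a
  a₆ := b

section
variable {F : Type} [Field F] [NumberField F]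

omit [NumberField F] in
theorem curve_Δ (a b : ℤ) : (curve F a b).Δ = ((-16 * (4 * a ^ 3 + 27 * b ^ 2) : ℤ) : 𝓞 F) := by
  simp only [curve, WeierstrassCurve.Δ, WeierstrassCurve.b₂, WeierstrassCurve.b₄,
    WeierstrassCurve.b₆, WeierstrassCurve.b₈]
  push_cast
  ring

theorem curve_Δ_ne {a b : ℤ} (h : 4 * a ^ 3 + 27 * b ^ 2 ≠ 0) : (curve F a b).Δ ≠ 0 := by
  rw [curve_Δ]
  exact_mod_cast mul_ne_zero (by norm_num) h

theorem trv_eq (a b : ℤ) (v : HeightOneSpectrum (𝓞 F)) : trv (curve F a b) v = trace v a b := by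
  unfold trv trace points affCount redv
  congr 2
  have e : (fun P : (𝓞 F ⧸ v.asIdeal) × (𝓞 F ⧸ v.asIdeal) =>
      P.2 ^ 2 + ((curve F a b).map (Ideal.Quotient.mk v.asIdeal)).a₁ * P.1 * P.2 +
      ((curve F a b).map (Ideal.Quotient.mk v.asIdeal)).a₃ * P.2 =
    P.1 ^ 3 + ((curve F a b).map (Ideal.Quotient.mk v.asIdeal)).a₂ * P.1 ^ 2 +
      ((curve F a b).map (Ideal.Quotient.mk v.asIdeal)).a₄ * P.1 +
      ((curve F a b).map (Ideal.Quotient.mk v.asIdeal)).a₆) =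
      fun P => P.2 ^ 2 = P.1 ^ 3 + (a : 𝓞 F ⧸ v.asIdeal) * P.1 + (b : 𝓞 F ⧸ v.asIdeal) := by
    funext P
    simp only [curve, WeierstrassCurve.map, map_zero, map_intCast]
    rw [zero_mul, zero_mul, zero_mul, add_zero, add_zero, add_zero]
  rw [e]
  push_cast
  rfl

/-- The Frobenius eigenvalues of an elliptic curve, with their sum. -/
theorem ec_main' (F : Type) [Field F] [NumberField F] (W : WeierstrassCurve (𝓞 F)) (hΔ : W.Δ ≠ 0)
    {κ : Type*} (n : κ → ℕ)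
    (ρ : ∀ k, Representation ℂ (GK F) (Fin (n k) → ℂ))
    (B : κ → HeightOneSpectrum (𝓞 F) → Polynomial ℂ)
    (hB : ∀ k, ∀ᶠ v in cofinite, ∀ σ : GK F, IsFrob v σ → ∀ z : ℂ,
      (B k v).eval z = LinearMap.det (1 - ((trv W v : ℂ) * z) • ρ k σ⁻¹ +
        (((nm F v : ℕ) : ℂ) * z ^ 2) • (ρ k σ⁻¹) ^ 2)) :
    ∃ α : HeightOneSpectrum (𝓞 F) → Fin 2 → ℂ,
      (∀ᶠ v in cofinite, ∀ j, ‖α v j‖ = (nm F v : ℝ) ^ (1 / 2 : ℝ)) ∧
      (∀ᶠ v in cofinite, ∑ j, α v j = (trv W v : ℂ)) ∧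
      ∀ k, ∀ᶠ v in cofinite, ∀ σ : GK F, IsFrob v σ → ∀ z : ℂ,
        (B k v).eval z = ∏ j, LinearMap.det (1 - (α v j * z) • ρ k σ⁻¹) := by
  have h6 : (6 : 𝓞 F) ≠ 0 := by norm_num
  have hgood : ∀ᶠ v : HeightOneSpectrum (𝓞 F) in cofinite,
      (6 : 𝓞 F) ∉ v.asIdeal ∧ W.Δ ∉ v.asIdeal := by
    rw [Filter.eventually_cofinite]
    refine ((finite_mem_prime h6).union (finite_mem_prime hΔ)).subset fun v hv => ?_
    rw [Set.mem_ofPred_eq, not_and_or, not_not, not_not] at hv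
    exact hv
  have hex : ∀ v : HeightOneSpectrum (𝓞 F), ∃ α : Fin 2 → ℂ,
      ((6 : 𝓞 F) ∉ v.asIdeal ∧ W.Δ ∉ v.asIdeal) →
        (∀ j, ‖α j‖ = (nm F v : ℝ) ^ (1 / 2 : ℝ)) ∧ α 0 + α 1 = (trv W v : ℂ) ∧
          α 0 * α 1 = ((nm F v : ℕ) : ℂ) := by
    intro v
    by_cases h : (6 : 𝓞 F) ∉ v.asIdeal ∧ W.Δ ∉ v.asIdeal
    · have hpos : (0 : ℝ) < nm F v := by
        have := two_le_nm v
        exact_mod_cast (by omega : 0 < nm F v)
      obtain ⟨α, h1, h2, h3⟩ := exists_roots hpos (hasse_v W v h.1 h.2)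
      refine ⟨α, fun _ => ⟨h1, ?_, ?_⟩⟩
      · rw [h2]; simp
      · rw [h3]; simp
    · exact ⟨0, fun h' => absurd h' h⟩
  choose α hα using hex
  refine ⟨α, hgood.mono fun v hv => (hα v hv).1, hgood.mono fun v hv => ?_, fun k => ?_⟩
  · rw [Fin.sum_univ_two, (hα v hv).2.1]
  · filter_upwards [hgood, hB k] with v h1 h2
    intro σ hσ z
    rw [det_two, (hα v h1).2.1, (hα v h1).2.2]
    exact h2 σ hσ z

/-- the norms of finitely many primes are bounded -/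
theorem exists_bound {S : Set (HeightOneSpectrum (𝓞 F))} (hS : S.Finite) :
    ∃ M : ℕ, ∀ v ∈ S, nm F v ≤ M := by
  obtain ⟨M, hM⟩ := (hS.image (nm F)).bddAbove
  exact ⟨M, fun v hv => hM (Set.mem_image_of_mem _ hv)⟩

/-- **The second moment of the traces of Frobenius of a modular elliptic curve.** -/
theorem tr_sec {a b : ℤ} (hab : 4 * a ^ 3 + 27 * b ^ 2 ≠ 0) (hmod : IsModular a b)
    {α : HeightOneSpectrum (𝓞 F) → Fin 2 → ℂ}
    (h1 : ∀ᶠ v in cofinite, ∀ j, ‖α v j‖ = (nm F v : ℝ) ^ (1 / 2 : ℝ))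
    (h2 : ∀ᶠ v in cofinite, ∑ j, α v j = (trv (curve F a b) v : ℂ)) :
    ∃ C : ℝ, ∀ᶠ ε : ℝ in 𝓝[>] 0, (EP (nm F) ε fun v => tr (1 / 2) α v ^ 2) ≤
      Module.finrank ℚ F * LL ε + C := by
  obtain ⟨N, hN, f, hf⟩ := hmod
  have h3 : ∀ᶠ v : HeightOneSpectrum (𝓞 F) in cofinite, (2 : 𝓞 F) ∉ v.asIdeal := by
    rw [Filter.eventually_cofinite]
    refine (finite_mem_prime (two_ne_zero (α := 𝓞 F))).subset fun v hv => ?_
    rw [Set.mem_ofPred_eq, not_not] at hv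
    exact hv
  have hbad := (h1.and h2).and h3
  rw [Filter.eventually_cofinite] at hbad
  obtain ⟨M1, hM1⟩ := exists_bound hbad
  set M : ℕ := max M1 (2 * (4 * a ^ 3 + 27 * b ^ 2)).natAbs with hM
  refine EP_sec hf.1 (fun v => sq_nonneg _) (fun v => ?_) M fun p hp u => ?_
  · have := abs_tr_le (1 / 2) α v
    rw [← sq_abs]
    calc |tr (1 / 2) α v| ^ 2 ≤ ((2 : ℕ) : ℝ) ^ 2 := pow_le_pow_left₀ (abs_nonneg _) this 2
      _ = 4 := by norm_num
  · set v := (kerPrime p u).1.1 with hv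
    have hnm : nm F v = (p : ℕ) := Pool.Agent.H341R2.nm_kerPrime p u
    have hgood : ((∀ j, ‖α v j‖ = (nm F v : ℝ) ^ (1 / 2 : ℝ)) ∧
        ∑ j, α v j = (trv (curve F a b) v : ℂ)) ∧ (2 : 𝓞 F) ∉ v.asIdeal := by
      by_contra hcon
      have := hM1 v hcon
      rw [hnm] at this
      have h4 : M1 ≤ M := le_max_left _ _
      omega
    have hpd : ¬ ((p : ℕ) : ℤ) ∣ 2 * (4 * a ^ 3 + 27 * b ^ 2) := by
      intro hdvd
      have h4 : (p : ℕ) ∣ (2 * (4 * a ^ 3 + 27 * b ^ 2)).natAbs := Int.natCast_dvd.1 hdvd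
      have h5 := Nat.le_of_dvd (Int.natAbs_pos.2 (mul_ne_zero two_ne_zero hab)) h4
      have h6 : (2 * (4 * a ^ 3 + 27 * b ^ 2)).natAbs ≤ M := le_max_right _ _
      omega
    have h7 : rE a b v = tt f p := rE_kerPrime hf p hpd u
    have h8 : tr (1 / 2) α v = rE a b v := by
      rw [Pool.Agent.Y722.EP.rE_eq hgood.2 a b]
      unfold tr
      rw [hgood.1.2, trv_eq, if_pos ⟨hgood.1.1, Complex.intCast_im _⟩, Complex.intCast_re,
        Real.sqrt_eq_rpow, Real.rpow_neg (Nat.cast_nonneg _)]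
      exact (div_eq_mul_inv _ _).symm
    rw [h8, h7, sq]

end

end Pool.Agent.X288.AR
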