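import Pool.Agent.X288.AR.Main

/-! Artin twists on the edge: assembly. -/

set_option autoImplicit false
set_option linter.unusedSectionVars false

namespace Pool.Agent.X288.AR

open Complex Filter Topology ComplexConjugate NumberField IsDedekindDomain Polynomial
  Pool.Agent.W401.Cheb Pool.Agent.W540.BE Pool.Agent.W353.L1 Asymptotics
open Pool.Agent.H341R2 (lam lam_tendsto sysK path_tendsto')
open Pool.Agent.W353.TP (LL)

section
variable {F : Type} [Field F]

/-- a common open normal subgroup -/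
theorem exists_U {κ : Type*} [Finite κ] {n : κ → ℕ}
    (ρ : ∀ k, Representation ℂ (GK F) (Fin (n k) → ℂ))
    (hopen : ∀ k, ∃ U : Subgroup (GK F), IsOpen (U : Set (GK F)) ∧ ∀ u ∈ U, ρ k u = 1) :
    ∃ U : Subgroup (GK F), U.Normal ∧ IsOpen (U : Set (GK F)) ∧ ∀ k, ∀ u ∈ U, ρ k u = 1 := by
  set Φ : GK F →* (∀ k : κ, Module.End ℂ (Fin (n k) → ℂ)) := MonoidHom.pi fun k => ρ k with hΦ
  have hUmem : ∀ g : GK F, g ∈ Φ.ker ↔ ∀ k, ρ k g = 1 := by
    intro g
    rw [MonoidHom.mem_ker, funext_iff]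
    exact ⟨fun h k => h k, fun h k => h k⟩
  have hkeropen : ∀ k, IsOpen {g : GK F | ρ k g = 1} := by
    intro k
    obtain ⟨V, hV, hVρ⟩ := hopen k
    have h1 : V ≤ (ρ k).ker := fun u hu => hVρ u hu
    exact Subgroup.isOpen_mono h1 hV
  refine ⟨Φ.ker, inferInstance, ?_, fun k u hu => (hUmem u).1 hu k⟩
  have : (Φ.ker : Set (GK F)) = ⋂ k, {g : GK F | ρ k g = 1} := by
    ext g
    rw [SetLike.mem_coe, hUmem, Set.mem_iInter]
    rfl
  rw [this]
  exact isOpen_iInter_of_finite hkeropen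

end

section
variable {G : Type*} [Group G] {κ : Type*} {n : κ → ℕ}
  (ρ : ∀ k, Representation ℂ G (Fin (n k) → ℂ)) (τ : κ → ℝ)

theorem hd_self {k : κ} (hk : (ρ k).IsIrreducible) : hd ρ τ k k = 1 := by
  unfold hd
  rw [if_pos rfl, finrank_end_irr (ρ k) hk, Nat.cast_one]

theorem hd_ne {k l : κ} (hk : (ρ k).IsIrreducible) (hl : (ρ l).IsIrreducible)
    (hne : τ k = τ l → IsEmpty ((ρ k).Equiv (ρ l))) : hd ρ τ k l = 0 := by
  unfold hd
  split_ifs with hτ
  · rw [finrank_hom_irr (ρ k) (ρ l) hk hl (hne hτ), Nat.cast_zero]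
  · rfl

/-- the representation is not its own dual, or the height is not zero -/
theorem pd_self {k : κ} (hk : (ρ k).IsIrreducible)
    (hd : τ k ≠ 0 ∨ IsEmpty ((ρ k).Equiv (ρ k).dual)) : pd ρ τ k k = 1 / 2 := by
  unfold pd
  rw [if_pos rfl, finrank_end_irr (ρ k) hk]
  have h2 : (if τ k = -τ k then
      (Module.finrank ℂ ((ρ k).IntertwiningMap (ρ k).dual) : ℝ) / 2 else 0) = 0 := by
    rcases hd with hd | hd
    · rw [if_neg]
      intro h
      apply hd
      linarith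
    · split_ifs with h
      · have h3 : Module.finrank ℂ ((ρ k).IntertwiningMap (ρ k).dual) = 0 := by
          have h4 : Subsingleton ((ρ k).IntertwiningMap (ρ k).dual) := by
            refine ⟨fun f g => ?_⟩
            have hz : ∀ f : (ρ k).IntertwiningMap (ρ k).dual, f = 0 := by
              intro f
              by_contra hf
              have hinj : Function.Injective f :=
                Representation.IsIrreducible.injective_or_eq_zero f |>.resolve_right hf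
              have hbij : Function.Bijective f := by
                have e1 : Module.finrank ℂ (Fin (n k) → ℂ) =
                    Module.finrank ℂ (Module.Dual ℂ (Fin (n k) → ℂ)) :=
                  Subspace.dual_finrank_eq.symm
                exact ⟨hinj, (LinearMap.injective_iff_surjective_of_finrank_eq_finrank
                  (f := f.toLinearMap) e1).1 hinj⟩
              exact hd.elim (Representation.IntertwiningMap.ofBijective f hbij)
            rw [hz f, hz g]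
          exact Module.finrank_zero_of_subsingleton
        rw [h3]
        simp
      · rfl
  rw [h2]
  norm_num

end

section
variable {F : Type} [Field F] [NumberField F] {b : ℕ} (hb2 : b ≤ 2) (w : ℝ)
    (α : HeightOneSpectrum (𝓞 F) → Fin b → ℂ)
    (hα : ∀ᶠ v in cofinite, ∀ j, ‖α v j‖ = (nm F v : ℝ) ^ w)
    (hreal : ∀ᶠ v in cofinite, (∑ j, α v j).im = 0)
    (hsec : ∃ C : ℝ, ∀ᶠ ε : ℝ in 𝓝[>] 0, (EP (nm F) ε fun v => tr w α v ^ 2) ≤ 1 * LL ε + C)
    {κ : Type*} [Fintype κ] {n : κ → ℕ}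
    (ρ : ∀ k, Representation ℂ (GK F) (Fin (n k) → ℂ))
    (hopen : ∀ k, ∃ U : Subgroup (GK F), IsOpen (U : Set (GK F)) ∧ ∀ u ∈ U, ρ k u = 1)
    (τ : κ → ℝ) (B : κ → HeightOneSpectrum (𝓞 F) → ℂ[X])
    (hB : ∀ k, ∀ᶠ v in cofinite, ∀ σ : GK F, IsFrob v σ → ∀ z : ℂ,
      (B k v).eval z = ∏ j, LinearMap.det (1 - (α v j * z) • ρ k σ⁻¹))
    (hB0 : ∀ k, ∀ v, (B k v).eval (((nm F v : ℕ) : ℂ) ^ (-(w + 1 + τ k * I : ℂ))) ≠ 0)
    (L : κ → ℂ → ℂ)
    (hL : ∀ k, ∀ s : ℂ, w + 1 < s.re →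
      L k s = ∏' v, ((B k v).eval (((nm F v : ℕ) : ℂ) ^ (-s)))⁻¹)

include hα hreal hopen hB hB0 hL in
theorem ne_all (k : κ) : ∀ᶠ ε : ℝ in 𝓝[>] 0, L k (w + 1 + τ k * I + ε) ≠ 0 := by
  obtain ⟨U, hUn, hU, hρ⟩ := exists_U ρ hopen
  have hfin : Finite (GK F ⧸ U) := Subgroup.quotient_finite_of_isOpen U hU
  choose σ hσ using exists_isFrob (F := F)
  exact (size_corr w α hα hreal U (ρ k) (hρ k) (τ k) (B k) (hB k) (hB0 k) (L k) (hL k) σ hσ).1

include hα hreal hopen hB hB0 hL hsec in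
theorem gram_all (C : ℝ) {η : ℝ} (hη : 0 < η) :
    ∀ᶠ ε : ℝ in 𝓝[>] 0, ∀ c : κ → ℝ, (∀ k, |c k| ≤ C) →
      (∑ k, c k * xs w τ L k ε) ^ 2 ≤ (∑ k, ∑ l, c k * c l * pd ρ τ k l) + η := by
  obtain ⟨U, hUn, hU, hρ⟩ := exists_U ρ hopen
  have hfin : Finite (GK F ⧸ U) := Subgroup.quotient_finite_of_isOpen U hU
  have h := gram_main w α hα hreal U hU ρ hρ τ B hB hB0 L hL zero_le_one hsec C hη
  filter_upwards [h] with ε h1 c hc
  have := h1 c hc
  rwa [one_mul] at this

include hα hreal hopen hB hB0 hL hsec in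
theorem disj_all (hirr : ∀ k, (ρ k).IsIrreducible)
    (hne : ∀ k l, k ≠ l → τ k = τ l → IsEmpty ((ρ k).Equiv (ρ l))) {η : ℝ} (hη : 0 < η) :
    ∀ᶠ ε : ℝ in 𝓝[>] 0, ∑ k, xs w τ L k ε ^ 2 ≤ 1 + η := by
  classical
  obtain ⟨U, hUn, hU, hρ⟩ := exists_U ρ hopen
  have hfin : Finite (GK F ⧸ U) := Subgroup.quotient_finite_of_isOpen U hU
  choose σ hσ using exists_isFrob (F := F)
  obtain ⟨Y, hY⟩ := xs_bdd w α hα hreal U hU ρ hρ τ B hB hB0 L hL
  have h := disjoint_of_gram Finset.univ (hd ρ τ) 1 (xs w τ L)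
    (fun k _ l _ hkl => hd_ne ρ τ (hirr k) (hirr l) (hne k l hkl))
    (fun k _ => Or.inr (hd_self ρ τ (hirr k)).ge) (C0 := Y) (fun k _ => hY k)
    (fun C η' hη' => by
      filter_upwards [gram_all w α hα hreal hsec ρ hopen τ B hB hB0 L hL C hη'] with ε h1 c hc
      refine (h1 c fun k => hc k (Finset.mem_univ k)).trans ?_
      have := pd_le_hd U ρ hρ hU σ hσ τ c
      rw [one_pow, one_mul]
      linarith) hη
  filter_upwards [h] with ε h1
  rw [one_pow] at h1
  refine le_trans (le_of_eq (Finset.sum_congr rfl fun k _ => ?_)) h1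
  rw [hd_self ρ τ (hirr k), div_one]

include hb2 hα hreal hopen hB hB0 hL hsec in
theorem strict_all {k : κ} (hk : (ρ k).IsIrreducible)
    (h : τ k ≠ 0 ∨ 3 ≤ n k ∨ IsEmpty ((ρ k).Equiv (ρ k).dual)) :
    ∃ A : ℝ, A < 1 ∧ ∀ᶠ ε : ℝ in 𝓝[>] 0, |xs w τ L k ε| ≤ A := by
  classical
  by_cases hd : τ k ≠ 0 ∨ IsEmpty ((ρ k).Equiv (ρ k).dual)
  · have h1 := gram_all w α hα hreal hsec ρ hopen τ B hB hB0 L hL 1 (η := 1 / 4) (by norm_num)
    refine ⟨9 / 10, by norm_num, ?_⟩
    filter_upwards [h1] with ε h2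
    have h3 := h2 (fun l => if l = k then 1 else 0) (fun l => by split_ifs <;> simp)
    simp only [ite_mul, one_mul, zero_mul, Finset.sum_ite_eq', Finset.mem_univ, if_true,
      mul_ite, mul_one, mul_zero] at h3
    rw [pd_self ρ τ hk hd] at h3
    refine abs_le_of_sq_le_sq (h3.trans (by norm_num)) (by norm_num)
  · push Not at hd
    obtain ⟨hτ, hdual⟩ := hd
    have h3 : 3 ≤ n k := by
      rcases h with h | h | h
      · exact absurd hτ h
      · exact h
      · obtain ⟨e⟩ := hdual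
        exact h.elim e
    obtain ⟨U, hUn, hU, hρ⟩ := exists_U ρ hopen
    have hfin : Finite (GK F ⧸ U) := Subgroup.quotient_finite_of_isOpen U hU
    exact strict_main w α hα hreal U hU ρ hρ τ B hB hB0 L hL hb2 hsec hk h3 hτ

end

end Pool.Agent.X288.AR
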